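import Mathlib
import Pool.Agent.Q290.SC.Stm

set_option autoImplicit false

/-!
# Project SC (helper290), job SYM: the symbol and its invariances
-/

namespace Pool.Agent.Q247.SC

open Pool.Agent.H29R2.MG
open Pool.Agent.Q290.SC

variable {g : ℕ}

theorem ve_inl_ne {i k : Fin g} (h : k ≠ i) : (ve k : VV g) (Sum.inl i) = 0 := by
  simp [ve, h.symm]

theorem ve_inr (i k : Fin g) : (ve k : VV g) (Sum.inr i) = 0 := by
  simp [ve]

theorem vf_inr_ne {i k : Fin g} (h : k ≠ i) : (vf k : VV g) (Sum.inr i) = 0 := by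
  simp [vf, h.symm]

theorem vf_inl (i k : Fin g) : (vf k : VV g) (Sum.inl i) = 0 := by
  simp [vf]

theorem ac_L_ve {i k : Fin g} (hk : k ≠ i) {a b c d : ℤ} (h : a * d - b * c = 1) :
    ac (L i a b c d h) (ve k) = ve k := ac_L_of h (ve_inl_ne hk) (ve_inr i k)

theorem ac_L_vf {i k : Fin g} (hk : k ≠ i) {a b c d : ℤ} (h : a * d - b * c = 1) :
    ac (L i a b c d h) (vf k) = vf k := ac_L_of h (vf_inl i k) (vf_inr_ne hk)

/-- a block is determined by its values on `e_i`, `f_i` -/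
theorem L_unique {i : Fin g} {M : SpG g} {a b c d : ℤ} (h : a * d - b * c = 1)
    (he : ac M (ve i) = a • ve i + b • vf i) (hf : ac M (vf i) = c • ve i + d • vf i)
    (h1 : ∀ k, k ≠ i → ac M (ve k) = ve k) (h2 : ∀ k, k ≠ i → ac M (vf k) = vf k) :
    M = L i a b c d h := by
  apply sp_ext_basis
  · intro k
    by_cases hk : k = i
    · subst hk; rw [he, ac_L_e]
    · rw [h1 k hk, ac_L_ve hk]
  · intro k
    by_cases hk : k = i
    · subst hk; rw [hf, ac_L_f]
    · rw [h2 k hk, ac_L_vf hk]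

theorem L_Ga (i : Fin g) {q a b c d : ℤ} (h : a * d - b * c = 1) (h1 : q ∣ a - 1) (h2 : q ∣ b)
    (h3 : q ∣ c) (h4 : q ∣ d - 1) : L i a b c d h ∈ Ga g q := by
  intro x j
  show q ∣ (x + x (Sum.inl i) • ((a - 1) • ve i + b • vf i) +
      x (Sum.inr i) • (c • ve i + (d - 1) • vf i)) j - x j
  simp only [Pi.add_apply, Pi.smul_apply, smul_eq_mul]
  have e : x j + x (Sum.inl i) * ((a - 1) * (ve i : VV g) j + b * (vf i : VV g) j) +
      x (Sum.inr i) * (c * (ve i : VV g) j + (d - 1) * (vf i : VV g) j) - x j =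
      x (Sum.inl i) * ((a - 1) * (ve i : VV g) j + b * (vf i : VV g) j) +
      x (Sum.inr i) * (c * (ve i : VV g) j + (d - 1) * (vf i : VV g) j) := by ring
  rw [e]
  exact dvd_add (Dvd.dvd.mul_left (dvd_add (h1.mul_right _) (h2.mul_right _)) _)
    (Dvd.dvd.mul_left (dvd_add (h3.mul_right _) (h4.mul_right _)) _)

theorem om_ve_ve (i k : Fin g) : om (ve i) (ve k : VV g) = 0 := by
  rw [om_ve, ve_inr]

theorem om_vf_vf (i k : Fin g) : om (vf i) (vf k : VV g) = 0 := by
  rw [om_vf, vf_inl, neg_zero]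

theorem om_ve_vf (i : Fin g) : om (ve i) (vf i : VV g) = 1 := by
  rw [om_ve]; simp [vf]

theorem om_vf_ve (i : Fin g) : om (vf i) (ve i : VV g) = -1 := by
  rw [om_vf]; simp [ve]

theorem om_ve_vf_ne {i k : Fin g} (h : k ≠ i) : om (ve i) (vf k : VV g) = 0 := by
  rw [om_ve, vf_inr_ne h]

theorem om_vf_ve_ne {i k : Fin g} (h : k ≠ i) : om (vf i) (ve k : VV g) = 0 := by
  rw [om_vf, ve_inl_ne h, neg_zero]

/-- independence of the second row -/
theorem row {q : ℤ} {Q : Type} [Group Q] (f : SpG g →* Q)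
    (hf : ∀ (v : VV g) (t : ℤ), q ∣ t → f (T v t) = 1) (i : Fin g) {a b c d c' d' : ℤ}
    (h : a * d - b * c = 1) (h' : a * d' - b * c' = 1) (hc : q ∣ c) (hc' : q ∣ c') :
    f (L i a b c' d' h') = f (L i a b c d h) := by
  have e : L i a b c d h * T (ve i) (c' * d - c * d') = L i a b c' d' h' := by
    apply L_unique
    · rw [ac_mul, ac_T, om_self, mul_zero, zero_smul, add_zero, ac_L_e]
    · rw [ac_mul, ac_T, om_ve_vf, mul_one, ac_add, ac_smul, ac_L_e, ac_L_f]
      have e1 : c' = c + (c' * d - c * d') * a := by linear_combination (-c') * h + c * h'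
      have e2 : d' = d + (c' * d - c * d') * b := by linear_combination (-d') * h + d * h'
      generalize c' * d - c * d' = r at e1 e2
      rw [e1, e2]
      module
    · intro k hk
      rw [ac_mul, ac_T, om_ve_ve, mul_zero, zero_smul, add_zero, ac_L_ve hk]
    · intro k hk
      rw [ac_mul, ac_T, om_ve_vf_ne hk, mul_zero, zero_smul, add_zero, ac_L_vf hk]
  rw [← e, map_mul, hf _ _ (dvd_sub (hc'.mul_right _) (hc.mul_right _)), mul_one]

theorem ac_Lv_ei {i j : Fin g} (hij : i ≠ j) (a u w d : ℤ) (h : a * d - u * w = 1) :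
    ac (Lv i j hij a u w d h) (ve i) = a • ve i + u • ve j := by
  show ve i + (ve i : VV g) (Sum.inl i) • ((a - 1) • ve i + u • ve j) +
      (ve i : VV g) (Sum.inl j) • (w • ve i + (d - 1) • ve j) +
      (ve i : VV g) (Sum.inr i) • ((d - 1) • vf i + (-w) • vf j) +
      (ve i : VV g) (Sum.inr j) • ((-u) • vf i + (a - 1) • vf j) = _
  rw [ve_inr, ve_inr, ve_inl_ne hij]
  have : (ve i : VV g) (Sum.inl i) = 1 := by simp [ve]
  rw [this]
  module

theorem ac_Lv_ej {i j : Fin g} (hij : i ≠ j) (a u w d : ℤ) (h : a * d - u * w = 1) :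
    ac (Lv i j hij a u w d h) (ve j) = w • ve i + d • ve j := by
  show ve j + (ve j : VV g) (Sum.inl i) • ((a - 1) • ve i + u • ve j) +
      (ve j : VV g) (Sum.inl j) • (w • ve i + (d - 1) • ve j) +
      (ve j : VV g) (Sum.inr i) • ((d - 1) • vf i + (-w) • vf j) +
      (ve j : VV g) (Sum.inr j) • ((-u) • vf i + (a - 1) • vf j) = _
  rw [ve_inr, ve_inr, ve_inl_ne hij.symm]
  have : (ve j : VV g) (Sum.inl j) = 1 := by simp [ve]
  rw [this]
  module

theorem ac_Lv_fi {i j : Fin g} (hij : i ≠ j) (a u w d : ℤ) (h : a * d - u * w = 1) :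
    ac (Lv i j hij a u w d h) (vf i) = d • vf i + (-w) • vf j := by
  show vf i + (vf i : VV g) (Sum.inl i) • ((a - 1) • ve i + u • ve j) +
      (vf i : VV g) (Sum.inl j) • (w • ve i + (d - 1) • ve j) +
      (vf i : VV g) (Sum.inr i) • ((d - 1) • vf i + (-w) • vf j) +
      (vf i : VV g) (Sum.inr j) • ((-u) • vf i + (a - 1) • vf j) = _
  rw [vf_inl, vf_inl, vf_inr_ne hij]
  have : (vf i : VV g) (Sum.inr i) = 1 := by simp [vf]
  rw [this]
  module

theorem ac_Lv_fj {i j : Fin g} (hij : i ≠ j) (a u w d : ℤ) (h : a * d - u * w = 1) :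
    ac (Lv i j hij a u w d h) (vf j) = (-u) • vf i + a • vf j := by
  show vf j + (vf j : VV g) (Sum.inl i) • ((a - 1) • ve i + u • ve j) +
      (vf j : VV g) (Sum.inl j) • (w • ve i + (d - 1) • ve j) +
      (vf j : VV g) (Sum.inr i) • ((d - 1) • vf i + (-w) • vf j) +
      (vf j : VV g) (Sum.inr j) • ((-u) • vf i + (a - 1) • vf j) = _
  rw [vf_inl, vf_inl, vf_inr_ne hij.symm]
  have : (vf j : VV g) (Sum.inr j) = 1 := by simp [vf]
  rw [this]
  module

theorem ac_Lv_ek {i j k : Fin g} (hij : i ≠ j) (hki : k ≠ i) (hkj : k ≠ j) (a u w d : ℤ)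
    (h : a * d - u * w = 1) : ac (Lv i j hij a u w d h) (ve k) = ve k := by
  show ve k + (ve k : VV g) (Sum.inl i) • ((a - 1) • ve i + u • ve j) +
      (ve k : VV g) (Sum.inl j) • (w • ve i + (d - 1) • ve j) +
      (ve k : VV g) (Sum.inr i) • ((d - 1) • vf i + (-w) • vf j) +
      (ve k : VV g) (Sum.inr j) • ((-u) • vf i + (a - 1) • vf j) = _
  rw [ve_inr, ve_inr, ve_inl_ne hki, ve_inl_ne hkj]
  module

theorem ac_Lv_fk {i j k : Fin g} (hij : i ≠ j) (hki : k ≠ i) (hkj : k ≠ j) (a u w d : ℤ)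
    (h : a * d - u * w = 1) : ac (Lv i j hij a u w d h) (vf k) = vf k := by
  show vf k + (vf k : VV g) (Sum.inl i) • ((a - 1) • ve i + u • ve j) +
      (vf k : VV g) (Sum.inl j) • (w • ve i + (d - 1) • ve j) +
      (vf k : VV g) (Sum.inr i) • ((d - 1) • vf i + (-w) • vf j) +
      (vf k : VV g) (Sum.inr j) • ((-u) • vf i + (a - 1) • vf j) = _
  rw [vf_inl, vf_inl, vf_inr_ne hki, vf_inr_ne hkj]
  module

theorem ac_inv_of {M : SpG g} {x y : VV g} (h : ac M x = y) : ac M⁻¹ y = x := by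
  rw [← h, ac_self_inv]

/-- independence of the handle -/
theorem handle (hc : S_CEN) {q : ℤ} (hg : 3 ≤ g) (hq : 2 ≤ q) {Q : Type} [Group Q]
    (f : SpG g →* Q) (hf : ∀ (v : VV g) (t : ℤ), q ∣ t → f (T v t) = 1) (i j : Fin g)
    {a b c d : ℤ} (h : a * d - b * c = 1) (h1 : q ∣ a - 1) (h2 : q ∣ b)
    (h3 : q ∣ c) (h4 : q ∣ d - 1) : f (L j a b c d h) = f (L i a b c d h) := by
  by_cases hij : i = j
  · rw [hij]
  have h0 : (0 : ℤ) * 0 - 1 * (-1) = 1 := by norm_num
  set Y : SpG g := Lv i j hij 0 1 (-1) 0 h0 with hY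
  obtain ⟨k, hki, hkj⟩ : ∃ k : Fin g, k ≠ i ∧ k ≠ j := by
    by_contra hcon
    push Not at hcon
    have h5 : (Finset.univ : Finset (Fin g)) ⊆ {i, j} := by
      intro k _
      by_cases hk : k = i
      · simp [hk]
      · simp [hcon k hk]
    have h6 := Finset.card_le_card h5
    rw [Finset.card_univ, Fintype.card_fin] at h6
    have h7 : ({i, j} : Finset (Fin g)).card ≤ 2 := Finset.card_le_two
    omega
  have yei : ac Y (ve i) = ve j := by rw [hY, ac_Lv_ei]; module
  have yej : ac Y (ve j) = -ve i := by rw [hY, ac_Lv_ej]; module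
  have yfi : ac Y (vf i) = vf j := by rw [hY, ac_Lv_fi]; module
  have yfj : ac Y (vf j) = -vf i := by rw [hY, ac_Lv_fj]; module
  have e : Y * L i a b c d h * Y⁻¹ = L j a b c d h := by
    apply L_unique
    · rw [ac_mul, ac_mul, ac_inv_of yei, ac_L_e, ac_add, ac_smul, ac_smul, yei, yfi]
    · rw [ac_mul, ac_mul, ac_inv_of yfi, ac_L_f, ac_add, ac_smul, ac_smul, yei, yfi]
    · intro l hl
      by_cases hli : l = i
      · subst hli
        have : ac Y⁻¹ (ve l) = -ve j := by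
          apply ac_inv_of
          rw [ac_neg, yej, neg_neg]
        rw [ac_mul, ac_mul, this, ac_neg, ac_L_ve (Ne.symm hl), ac_neg, yej, neg_neg]
      · have h5 : ac Y (ve l) = ve l := ac_Lv_ek hij hli hl _ _ _ _ _
        rw [ac_mul, ac_mul, ac_inv_of h5, ac_L_ve hli, h5]
    · intro l hl
      by_cases hli : l = i
      · subst hli
        have : ac Y⁻¹ (vf l) = -vf j := by
          apply ac_inv_of
          rw [ac_neg, yfj, neg_neg]
        rw [ac_mul, ac_mul, this, ac_neg, ac_L_vf (Ne.symm hl), ac_neg, yfj, neg_neg]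
      · have h5 : ac Y (vf l) = vf l := ac_Lv_fk hij hli hl _ _ _ _ _
        rw [ac_mul, ac_mul, ac_inv_of h5, ac_L_vf hli, h5]
  rw [← e]
  exact hc g q hq Q f hf _ (L_Ga i h h1 h2 h3 h4) Y
    ⟨k, ac_Lv_ek hij hki hkj _ _ _ _ _, ac_Lv_fk hij hki hkj _ _ _ _ _⟩

theorem exists_row {q a b : ℤ} (h1 : q ∣ a - 1) (h2 : q ∣ b) (h : IsCoprime a b) :
    ∃ c d : ℤ, a * d - b * c = 1 ∧ q ∣ c ∧ q ∣ d - 1 := by
  obtain ⟨x, y, hxy⟩ := h
  refine ⟨-y * (1 - a), x + y * b, by linear_combination hxy, ?_, ?_⟩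
  · have : -y * (1 - a) = y * (a - 1) := by ring
    rw [this]
    exact h1.mul_left _
  · have : x + y * b - 1 = (-x) * (a - 1) := by linear_combination hxy
    rw [this]
    exact h1.mul_left _

theorem sym (hc : S_CEN) : S_SYM := by
  intro g q hg hq Q _ f hf
  have key : ∀ a b : ℤ, ∃ s : Q, ∀ (i : Fin g) (c d : ℤ) (h : a * d - b * c = 1), q ∣ a - 1 →
      q ∣ b → q ∣ c → q ∣ d - 1 → f (L i a b c d h) = s := by
    intro a b
    by_cases hex : ∃ (i : Fin g) (c d : ℤ) (_ : a * d - b * c = 1),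
        q ∣ a - 1 ∧ q ∣ b ∧ q ∣ c ∧ q ∣ d - 1
    · obtain ⟨i₀, c₀, d₀, h₀, h1, h2, h3, h4⟩ := hex
      refine ⟨f (L i₀ a b c₀ d₀ h₀), fun i c d h _ _ h7 h8 => ?_⟩
      rw [handle hc hg hq f hf i₀ i h h1 h2 h7 h8]
      exact row f hf i₀ h₀ h h3 h7
    · exact ⟨1, fun i c d h h1 h2 h3 h4 => absurd ⟨i, c, d, h, h1, h2, h3, h4⟩ hex⟩
  choose s hs using key
  have i₀ : Fin g := ⟨0, by omega⟩
  obtain ⟨k, hk⟩ : ∃ k : Fin g, k ≠ i₀ := by
    have : Nontrivial (Fin g) := Fin.nontrivial_iff_two_le.2 (by omega)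
    exact exists_ne i₀
  refine ⟨s, fun i a b c d h h1 h2 h3 h4 => hs a b i c d h h1 h2 h3 h4, ?_, ?_⟩
  · intro a b t h1 h2 hco
    obtain ⟨c, d, h, h3, h4⟩ := exists_row h1 h2 hco
    have h' : (a + t * b) * (d - t * b) - b * (c + t * d - t * (a + t * b)) = 1 := by
      linear_combination h
    have e : T (ve i₀) t * L i₀ a b c d h * (T (ve i₀) t)⁻¹ =
        L i₀ (a + t * b) b (c + t * d - t * (a + t * b)) (d - t * b) h' := by
      rw [← T_neg]
      apply L_unique
      · rw [ac_mul, ac_mul, ac_T _ (-t), om_self, mul_zero, zero_smul, add_zero, ac_L_e, ac_T,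
          om_add_right, om_smul_right, om_smul_right, om_self, om_ve_vf]
        module
      · rw [ac_mul, ac_mul, ac_T _ (-t), om_ve_vf, ac_add, ac_smul, ac_L_e, ac_L_f, ac_T]
        simp only [om_add_right, om_smul_right, om_self, om_ve_vf]
        module
      · intro l hl
        rw [ac_mul, ac_mul, ac_T _ (-t), om_ve_ve, mul_zero, zero_smul, add_zero, ac_L_ve hl,
          ac_T, om_ve_ve, mul_zero, zero_smul, add_zero]
      · intro l hl
        rw [ac_mul, ac_mul, ac_T _ (-t), om_ve_vf_ne hl, mul_zero, zero_smul, add_zero,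
          ac_L_vf hl, ac_T, om_ve_vf_ne hl, mul_zero, zero_smul, add_zero]
    rw [← hs a b i₀ c d h h1 h2 h3 h4,
      ← hs (a + t * b) b i₀ _ _ h' ?_ h2 ?_ ?_, ← e]
    · refine hc g q hq Q f hf _ (L_Ga i₀ h h1 h2 h3 h4) _ ⟨k, ?_, ?_⟩
      · rw [ac_T, om_ve_ve, mul_zero, zero_smul, add_zero]
      · rw [ac_T, om_ve_vf_ne hk, mul_zero, zero_smul, add_zero]
    · have : a + t * b - 1 = (a - 1) + t * b := by ring
      rw [this]
      exact dvd_add h1 (h2.mul_left _)
    · have : c + t * d - t * (a + t * b) = c + t * (d - 1) - t * (a - 1) - t * t * b := by ring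
      rw [this]
      exact dvd_sub (dvd_sub (dvd_add h3 (h4.mul_left _)) (h1.mul_left _)) (h2.mul_left _)
    · have : d - t * b - 1 = (d - 1) - t * b := by ring
      rw [this]
      exact dvd_sub h4 (h2.mul_left _)
  · intro a b t h1 h2 hco ht
    obtain ⟨c, d, h, h3, h4⟩ := exists_row h1 h2 hco
    have h' : a * (d + t * c) - (b + t * a) * c = 1 := by linear_combination h
    have e : T (vf i₀) (-t) * L i₀ a b c d h = L i₀ a (b + t * a) c (d + t * c) h' := by
      apply L_unique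
      · rw [ac_mul, ac_L_e, ac_T]
        simp only [om_add_right, om_smul_right, om_self, om_vf_ve]
        module
      · rw [ac_mul, ac_L_f, ac_T]
        simp only [om_add_right, om_smul_right, om_self, om_vf_ve]
        module
      · intro l hl
        rw [ac_mul, ac_L_ve hl, ac_T, om_vf_ve_ne hl, mul_zero, zero_smul, add_zero]
      · intro l hl
        rw [ac_mul, ac_L_vf hl, ac_T, om_vf_vf, mul_zero, zero_smul, add_zero]
    rw [← hs a b i₀ c d h h1 h2 h3 h4,
      ← hs a (b + t * a) i₀ _ _ h' h1 ?_ h3 ?_, ← e, map_mul, hf _ _ ((dvd_neg).2 ht), one_mul]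
    · exact dvd_add h2 (ht.mul_right _)
    · have : d + t * c - 1 = (d - 1) + t * c := by ring
      rw [this]
      exact dvd_add h4 (h3.mul_left _)

end Pool.Agent.Q247.SC
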